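import Pool.Agent.H84.S2.TgB

/-!
# MP_70ba79_ag, board s2l_modules: row B_GNN, families of curves through a node
-/

set_option autoImplicit false

namespace Pool.Agent.H52.S2

open MvPolynomial SC
open Pool.Agent.H27.LV (ge deg poleOrder canDeg)
open Pool.Agent.H84.SM (cr dt dp)
open Pool.Agent.H84.SL (pd)
open Pool.Agent.H92.SF (Q2)
open Pool.Agent.H3.SF (Itg Bb BB Hm eu grd hes Sfc Crd Cnn Crf Prm nv Vl VQ evc FE E)
open Pool.Agent.H84.SF
open Pool.Agent.H3.S2
open Pool.Agent.H84.S2

attribute [-instance] HahnSeries.powerSeriesAlgebra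

section Laurent

variable {k M : Type} [Field k] [Field M] [Algebra k M]

/-- the order of a Laurent series -/
noncomputable def vL (k M : Type) [Field k] [Field M] [Algebra k M] : DV k (HahnSeries ℤ M) where
  ord := HahnSeries.order
  ord_zero := HahnSeries.order_zero
  ord_mul := fun _ _ hx hy => HahnSeries.order_mul hx hy
  ord_add := fun _ _ _ _ hxy => HahnSeries.min_order_le_order_add hxy
  ord_base := fun c => by
    rw [HahnSeries.algebraMap_apply, HahnSeries.order_C]
  ord_surj := ⟨HahnSeries.single 1 1, HahnSeries.single_ne_zero one_ne_zero,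
    HahnSeries.order_single one_ne_zero⟩

theorem ge_iff (t : ℤ) (x : HahnSeries ℤ M) :
    ge (vL k M) t x ↔ ∀ n, n < t → x.coeff n = 0 := by
  constructor
  · rintro (h | h) n hn
    · rw [h, HahnSeries.coeff_zero]
    · exact HahnSeries.coeff_eq_zero_of_lt_order (lt_of_lt_of_le hn h)
  · intro h
    by_cases hx : x = 0
    · exact Or.inl hx
    · refine Or.inr ?_
      by_contra hlt
      rw [not_le] at hlt
      exact hx (HahnSeries.coeff_order_eq_zero.1 (h _ hlt))

/-- a family of linear maps acts on the coefficients -/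
noncomputable def cwf (δ : ℤ → M →ₗ[k] M) (x : HahnSeries ℤ M) : HahnSeries ℤ M where
  coeff n := δ n (x.coeff n)
  isPWO_support' := x.isPWO_support.mono (fun n hn h => hn (by
    change δ n (x.coeff n) = 0
    rw [h, map_zero]))

theorem cwf_coeff (δ : ℤ → M →ₗ[k] M) (x : HahnSeries ℤ M) (n : ℤ) :
    (cwf δ x).coeff n = δ n (x.coeff n) := rfl

theorem cwf_supp (δ : ℤ → M →ₗ[k] M) (x : HahnSeries ℤ M) : (cwf δ x).support ⊆ x.support := by
  intro n hn h
  apply hn
  rw [cwf_coeff]
  rw [h, map_zero]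

/-- the derivation of the Laurent series which acts on the coefficients -/
noncomputable def cwD (δ : ℤ → M →ₗ[k] M)
    (hδ : ∀ i j a b, δ (i + j) (a * b) = a * δ j b + b * δ i a) :
    Derivation k (HahnSeries ℤ M) (HahnSeries ℤ M) :=
  Derivation.mk'
    { toFun := cwf δ
      map_add' := fun x y => by
        ext n
        rw [cwf_coeff, HahnSeries.coeff_add, map_add, HahnSeries.coeff_add, cwf_coeff, cwf_coeff]
      map_smul' := fun c x => by
        ext n
        rw [cwf_coeff, HahnSeries.coeff_smul, map_smul, RingHom.id_apply, HahnSeries.coeff_smul,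
          cwf_coeff] }
    (by
      intro x y
      change cwf δ (x * y) = x * cwf δ y + y * cwf δ x
      ext n
      rw [HahnSeries.coeff_add, mul_comm y, cwf_coeff, HahnSeries.coeff_mul,
        HahnSeries.coeff_mul_right' y.isPWO_support (cwf_supp δ y),
        HahnSeries.coeff_mul_left' x.isPWO_support (cwf_supp δ x), map_sum,
        ← Finset.sum_add_distrib]
      refine Finset.sum_congr rfl ?_
      intro ij hij
      rw [cwf_coeff, cwf_coeff]
      have h1 : ij.1 + ij.2 = n := (Finset.mem_addAntidiagonal.1 hij).2.2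
      rw [← h1, hδ, mul_comm (y.coeff ij.2)])

theorem cwD_coeff (δ : ℤ → M →ₗ[k] M)
    (hδ : ∀ i j a b, δ (i + j) (a * b) = a * δ j b + b * δ i a) (x : HahnSeries ℤ M) (n : ℤ) :
    (cwD δ hδ x).coeff n = δ n (x.coeff n) := rfl

theorem cwD_ge (δ : ℤ → M →ₗ[k] M)
    (hδ : ∀ i j a b, δ (i + j) (a * b) = a * δ j b + b * δ i a) (x : HahnSeries ℤ M) :
    x ≠ 0 → ge (vL k M) ((vL k M).ord x + 0) (cwD δ hδ x) := by
  intro _
  rw [ge_iff]
  intro n hn
  rw [cwD_coeff, HahnSeries.coeff_eq_zero_of_lt_order (by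
    rw [add_zero] at hn
    exact hn), map_zero]

/-- `T d/dT` on Laurent series -/
noncomputable def D1 (k M : Type) [Field k] [Field M] [Algebra k M] :
    Derivation k (HahnSeries ℤ M) (HahnSeries ℤ M) :=
  cwD (fun n => LinearMap.mulLeft k ((n : ℤ) : M)) (by
    intro i j a b
    simp only [LinearMap.mulLeft_apply]
    push_cast
    ring)

/-- a derivation on the coefficients -/
noncomputable def D2 (Δ : Derivation k M M) :
    Derivation k (HahnSeries ℤ M) (HahnSeries ℤ M) :=
  cwD (fun _ => (Δ : M →ₗ[k] M)) (by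
    intro i j a b
    change Δ (a * b) = a * Δ b + b * Δ a
    rw [Derivation.leibniz, smul_eq_mul, smul_eq_mul])

/-- polynomials as Laurent series -/
noncomputable def io (M : Type) [Field M] : Polynomial M →+* HahnSeries ℤ M :=
  (HahnSeries.ofPowerSeries ℤ M).comp Polynomial.coeToPowerSeries.ringHom

theorem io_coeff (p : Polynomial M) (n : ℕ) : (io M p).coeff (n : ℤ) = p.coeff n := by
  change (HahnSeries.ofPowerSeries ℤ M (p : PowerSeries M)).coeff (n : ℤ) = p.coeff n
  rw [HahnSeries.ofPowerSeries_apply_coeff, Polynomial.coeff_coe]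

theorem io_coeff_neg (p : Polynomial M) (n : ℤ) (hn : n < 0) : (io M p).coeff n = 0 := by
  change (HahnSeries.ofPowerSeries ℤ M (p : PowerSeries M)).coeff n = 0
  rw [HahnSeries.ofPowerSeries_apply]
  apply HahnSeries.embDomain_notin_range
  rintro ⟨m, hm⟩
  have : (m : ℤ) = n := hm
  omega

theorem io_ge (p : Polynomial M) (a : ℕ) : ge (vL k M) a (io M p) ↔ Polynomial.X ^ a ∣ p := by
  rw [ge_iff, Polynomial.X_pow_dvd_iff]
  constructor
  · intro h d hd
    rw [← io_coeff]
    exact h _ (by exact_mod_cast hd)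
  · intro h n hn
    by_cases h0 : n < 0
    · exact io_coeff_neg p n h0
    · obtain ⟨m, rfl⟩ : ∃ m : ℕ, n = m := ⟨n.toNat, by omega⟩
      rw [io_coeff]
      exact h m (by exact_mod_cast hn)

theorem io_C (c : k) : io M (Polynomial.C (algebraMap k M c)) =
    algebraMap k (HahnSeries ℤ M) c := by
  rw [HahnSeries.algebraMap_apply]
  change HahnSeries.ofPowerSeries ℤ M ((Polynomial.C (algebraMap k M c) : Polynomial M) :
    PowerSeries M) = _
  rw [Polynomial.coe_C, HahnSeries.ofPowerSeries_C]

/-- polynomials as Laurent series, algebra homomorphism -/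
noncomputable def ioA (k M : Type) [Field k] [Field M] [Algebra k M] :
    Polynomial M →ₐ[k] HahnSeries ℤ M :=
  { io M with commutes' := fun c => io_C c }

theorem D1_io (p : Polynomial M) :
    D1 k M (io M p) = io M (Polynomial.X * Polynomial.derivative p) := by
  ext n
  rw [D1, cwD_coeff, LinearMap.mulLeft_apply]
  by_cases h0 : n < 0
  · rw [io_coeff_neg _ _ h0, io_coeff_neg _ _ h0, mul_zero]
  · obtain ⟨m, rfl⟩ : ∃ m : ℕ, n = m := ⟨n.toNat, by omega⟩
    rw [io_coeff, io_coeff]
    cases m with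
    | zero => simp
    | succ m =>
      rw [Polynomial.coeff_X_mul, Polynomial.coeff_derivative]
      push_cast
      ring

end Laurent

section Alg

/-- value of a form at a multiple of a point -/
theorem aeval_smul_hom {τ k L : Type} [Field k] [Field L] [Algebra k L] (P : MvPolynomial τ k)
    (e : ℕ) (hP : P.IsHomogeneous e) (c : L) (x : τ → L) :
    aeval (fun i => c * x i) P = c ^ e * aeval x P := by
  rw [aeval_def, aeval_def, eval₂_eq, eval₂_eq, Finset.mul_sum]
  refine Finset.sum_congr rfl fun m hm => ?_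
  have h1 : ∑ i ∈ m.support, m i = e := by
    have h := hP (mem_support_iff.1 hm)
    rw [Finsupp.weight_apply, Finsupp.sum] at h
    simpa using h
  rw [← h1, ← Finset.prod_pow_eq_pow_sum]
  have h2 : ∏ i ∈ m.support, (c * x i) ^ m i = (∏ i ∈ m.support, c ^ m i) *
      ∏ i ∈ m.support, x i ^ m i := by
    rw [← Finset.prod_mul_distrib]
    exact Finset.prod_congr rfl fun i _ => mul_pow _ _ _
  rw [h2]
  ring

theorem dt_map {A B : Type} [CommRing A] [CommRing B] (f : A →+* B) (x y z : Fin 3 → A) :
    f (dt x y z) = dt (fun i => f (x i)) (fun i => f (y i)) (fun i => f (z i)) := by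
  simp only [dt, dp, cr, map_sum, map_mul, map_sub]

/-- the determinant along two logarithmic vector fields -/
theorem dt_log {A : Type} [CommRing A] (Λ l1 l2 a1 b1 a2 b2 : A) (y r c : Fin 3 → A) :
    dt (fun i => Λ * y i) (fun i => l2 * y i + Λ * (a2 * r i + b2 * c i))
      (fun i => l1 * y i + Λ * (a1 * r i + b1 * c i)) =
      Λ ^ 3 * (a2 * b1 - b2 * a1) * dt y r c := by
  simp only [dt, dp, cr, Fin.sum_univ_three]
  simp only [Fin.isValue, Fin.reduceAdd, zero_add]
  ring

variable {k M : Type} [Field k] [Field M] [Algebra k M]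

theorem ge_mulL {s t : ℤ} {x y : HahnSeries ℤ M} (hx : ge (vL k M) s x) (hy : ge (vL k M) t y) :
    ge (vL k M) (s + t) (x * y) := by
  by_cases hx0 : x = 0
  · exact Or.inl (by rw [hx0, zero_mul])
  by_cases hy0 : y = 0
  · exact Or.inl (by rw [hy0, mul_zero])
  refine Or.inr ?_
  rw [(vL k M).ord_mul x y hx0 hy0]
  rcases hx with h | h
  · exact absurd h hx0
  rcases hy with h' | h'
  · exact absurd h' hy0
  exact add_le_add h h'

theorem ge_subL {t : ℤ} {x y : HahnSeries ℤ M} (hx : ge (vL k M) t x) (hy : ge (vL k M) t y) :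
    ge (vL k M) t (x - y) := by
  rw [ge_iff] at hx hy ⊢
  intro n hn
  rw [HahnSeries.coeff_sub, hx n hn, hy n hn, sub_zero]

theorem ge_powL {x : HahnSeries ℤ M} (hx : ge (vL k M) 0 x) (n : ℕ) : ge (vL k M) 0 (x ^ n) := by
  induction n with
  | zero =>
    rw [pow_zero]
    refine Or.inr ?_
    change (0 : ℤ) ≤ (1 : HahnSeries ℤ M).order
    rw [HahnSeries.order_one]
  | succ n ih =>
    rw [pow_succ]
    have h := ge_mulL ih hx
    rw [add_zero] at h
    exact h

theorem io_ge0 (p : Polynomial M) : ge (vL k M) 0 (io M p) := by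
  have h := (io_ge (k := k) p 0).2 (by rw [pow_zero]; exact one_dvd _)
  exact h

variable {L : Type} [Field L] [Algebra k L] [Algebra L M] [IsScalarTower k L M]

theorem D2_io (Δ : Derivation k M M) (A : Polynomial L) :
    D2 Δ (io M (A.map (algebraMap L M))) = io M (pd (fun b => Δ (algebraMap L M b)) A) := by
  ext n
  rw [D2, cwD_coeff]
  change Δ ((io M (A.map (algebraMap L M))).coeff n) = _
  by_cases h0 : n < 0
  · rw [io_coeff_neg _ _ h0, io_coeff_neg _ _ h0, map_zero]
  · obtain ⟨m, rfl⟩ : ∃ m : ℕ, n = m := ⟨n.toNat, by omega⟩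
    rw [io_coeff, io_coeff, Polynomial.coeff_map]
    unfold pd
    rw [Polynomial.finsetSum_coeff]
    simp only [Polynomial.coeff_monomial]
    rw [Finset.sum_ite_eq']
    split_ifs with h
    · rfl
    · rw [Polynomial.coeff_eq_zero_of_natDegree_lt (by
        rw [Finset.mem_range] at h
        omega), map_zero, map_zero]

/-- polynomials over `L` as Laurent series over `M` -/
noncomputable def Ph (k L M : Type) [Field k] [Field M] [Algebra k M] [Field L] [Algebra k L]
    [Algebra L M] [IsScalarTower k L M] : Polynomial L →ₐ[k] HahnSeries ℤ M :=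
  (ioA k M).comp (Polynomial.mapAlgHom (IsScalarTower.toAlgHom k L M))

theorem Ph_apply (A : Polynomial L) : Ph k L M A = io M (A.map (algebraMap L M)) := rfl

end Alg

theorem pf_GNN (hLDT : T_LDT) (hHMK : T_HMK) : T_GNN := by
  intro k F σ _ _ _ _ _ _ _ X u dd J j0 c hS hu m GP hm hN s hs hc hGs L M _ _ _ _ _ _ Δ P c1 a
    hc1 hP hPG μ hμ hP0
  obtain ⟨L0, ε, p, r, cc, Gs, hL0, hL0s, hp, hGsF, hε, ⟨w, hw⟩, hder, -⟩ :=
    hLDT k F σ X u dd J j0 hS m GP hm hN s hs hc hGs
  have hz : ∀ f : MvPolynomial σ k, aeval (fun i => Ph k L M (P i)) f =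
      Ph k L M (aeval P f) := fun f => (comp_aeval_apply (f := P) (Ph k L M) f).symm
  -- the value of a form at `T = 0`
  have hev : ∀ f : MvPolynomial σ k, (aeval P f).coeff 0 =
      aeval (fun i => μ * algebraMap k L (s i)) f := by
    intro f
    have h1 := comp_aeval_apply (f := P) ((Polynomial.aeval (0 : L)).restrictScalars k) f
    have h2 : ∀ q : Polynomial L, ((Polynomial.aeval (0 : L)).restrictScalars k) q =
        q.coeff 0 := by
      intro q
      change Polynomial.aeval (0 : L) q = q.coeff 0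
      rw [Polynomial.coe_aeval_eq_eval, Polynomial.coeff_zero_eq_eval_zero]
    rw [h2] at h1
    rw [h1]
    congr 2
    funext i
    rw [h2, hP0]
  have hμM : algebraMap L M μ ≠ 0 := fun h => hμ ((algebraMap L M).injective (by
    rw [h, map_zero]))
  -- the homomorphism
  obtain ⟨y, hy1, hy2, hy3⟩ := hHMK k F σ (HahnSeries ℤ M) X s hc (fun i => Ph k L M (P i))
    (fun f hf => by rw [hz, hP f hf, map_zero]) (vL k M)
    (io M (Polynomial.C (algebraMap L M μ)⁻¹)) (by
      intro h
      have h1 : (io M (Polynomial.C (algebraMap L M μ)⁻¹)).coeff ((0 : ℕ) : ℤ) = 0 := by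
        rw [h, HahnSeries.coeff_zero]
      rw [io_coeff, Polynomial.coeff_C_zero] at h1
      exact inv_ne_zero hμM h1) (by
      intro i
      rw [← io_C, Ph_apply, ← map_mul, ← map_sub]
      have h1 := (io_ge (k := k) (Polynomial.C (algebraMap L M μ)⁻¹ *
        (P i).map (algebraMap L M) - Polynomial.C (algebraMap k M (s i))) 1).2 (by
          rw [pow_one, Polynomial.X_dvd_iff, Polynomial.coeff_sub, Polynomial.coeff_C_mul,
            Polynomial.coeff_map, hP0, Polynomial.coeff_C_zero, map_mul,
            ← IsScalarTower.algebraMap_apply k L M, inv_mul_cancel_left₀ hμM, sub_self])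
      exact_mod_cast h1)
  have hy3' := hy3 ε hε
  -- the linear form `L0`
  have hΛ : ((aeval P L0).map (algebraMap L M)).coeff 0 ≠ 0 := by
    rw [Polynomial.coeff_map, hev, aeval_smul_hom L0 1 hL0, pow_one]
    intro h
    have h1 : μ * aeval (fun i => algebraMap k L (s i)) L0 = 0 := (algebraMap L M).injective (by
      rw [h, map_zero])
    rcases mul_eq_zero.1 h1 with h2 | h2
    · exact hμ h2
    · have h3 : aeval (fun i => algebraMap k L (s i)) L0 = algebraMap k L (eval s L0) := by
        have h4 := comp_aeval_apply (f := s) (Algebra.ofId k L) L0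
        rw [Algebra.ofId_apply] at h4
        rw [← coe_aeval_eq_eval, RingHom.coe_coe, h4]
        rfl
      rw [h3] at h2
      exact hL0s ((algebraMap k L).injective (by rw [h2, map_zero]))
  generalize hΛd : (aeval P L0).map (algebraMap L M) = q0 at hΛ
  have hΛ1 : aeval (fun i => Ph k L M (P i)) L0 = io M q0 := by
    rw [hz, Ph_apply, hΛd]
  -- `G` at the curve
  have hG1 : y Gs * io M q0 ^ m =
      io M (Polynomial.C (algebraMap L M c1) * Polynomial.X ^ a) := by
    have h1 := hy1 Gs m GP (L0 ^ m) ⟨hN.hom, by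
      have h2 := hL0.pow m
      rw [one_mul] at h2
      exact h2, by
      rw [map_pow]
      exact hGsF⟩
    rw [map_pow, hΛ1, hz, hPG, Ph_apply, Polynomial.map_mul, Polynomial.map_C,
      Polynomial.map_pow, Polynomial.map_X] at h1
    exact h1
  have hG0 : y Gs ≠ 0 := by
    intro h
    rw [h, zero_mul] at hG1
    have h1 : (io M (Polynomial.C (algebraMap L M c1) * Polynomial.X ^ a)).coeff (a : ℤ) = 0 := by
      rw [← hG1, HahnSeries.coeff_zero]
    rw [io_coeff, Polynomial.coeff_C_mul, Polynomial.coeff_X_pow_self, mul_one] at h1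
    exact hc1 ((algebraMap L M).injective (by rw [h1, map_zero]))
  -- the coordinates
  have hlin : ∀ l, Ph k L M (lin c P l) = io M q0 * y (p l) := by
    intro l
    let U : MvPolynomial σ k := ∑ i, c l i • MvPolynomial.X i
    have hU : U.IsHomogeneous 1 := by
      apply IsHomogeneous.sum
      intro i _
      rw [smul_eq_C_mul]
      have := (isHomogeneous_X k i).C_mul (c l i)
      exact this
    have hUX : aeval X U = u l := by
      simp only [U, map_sum, map_smul, aeval_X]
      exact (hu l).symm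
    have hUP : aeval P U = lin c P l := by
      simp only [U, map_sum, map_smul, aeval_X]
      rfl
    have h1 := hy1 (p l) 1 U L0 ⟨hU, hL0, by rw [hp l, hUX]⟩
    rw [hΛ1, hz, hUP] at h1
    rw [← h1, mul_comm]
  -- derivations
  obtain ⟨a1, b1, ha1, hb1, h1⟩ := hder (HahnSeries ℤ M) y (vL k M) hy2 hy3' hG0 (D1 k M) 0
    (cwD_ge _ _)
  obtain ⟨a2, b2, ha2, hb2, h2⟩ := hder (HahnSeries ℤ M) y (vL k M) hy2 hy3' hG0 (D2 Δ) 0
    (cwD_ge _ _)
  have e1 : ∀ l, io M (Polynomial.X * (Polynomial.derivative (lin c P l)).map (algebraMap L M)) =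
      D1 k M (io M q0) * y (p l) + io M q0 * (a1 * y (r l) + b1 * y (cc l)) := by
    intro l
    rw [← Polynomial.derivative_map, ← D1_io (k := k), ← Ph_apply (k := k), hlin l,
      Derivation.leibniz, smul_eq_mul, smul_eq_mul, h1 l]
    ring
  have e2 : ∀ l, io M (pd (fun b => Δ (algebraMap L M b)) (lin c P l)) =
      D2 Δ (io M q0) * y (p l) + io M q0 * (a2 * y (r l) + b2 * y (cc l)) := by
    intro l
    rw [← D2_io, ← Ph_apply (k := k), hlin l, Derivation.leibniz, smul_eq_mul, smul_eq_mul, h2 l]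
    ring
  generalize hdet : dt (fun i => (lin c P i).map (algebraMap L M))
      (fun i => pd (fun b => Δ (algebraMap L M b)) (lin c P i))
      (fun i => Polynomial.X * (Polynomial.derivative (lin c P i)).map (algebraMap L M)) = Dt
  have e3 : io M Dt = io M q0 ^ 3 * (a2 * b1 - b2 * a1) * (y Gs * y w) := by
    rw [← hdet, dt_map]
    simp only [e1, e2]
    have e4 : ∀ i, io M ((lin c P i).map (algebraMap L M)) = io M q0 * y (p i) := fun i => hlin i
    simp only [e4]
    rw [dt_log, ← map_mul, ← hw]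
    congr 1
    exact (dt_map (y : Os X s →+* HahnSeries ℤ M) p r cc).symm
  have e5 : io M (Dt * q0 ^ m) = io M (q0 ^ 3) * (a2 * b1 - b2 * a1) *
      (io M (Polynomial.C (algebraMap L M c1) * Polynomial.X ^ a) * y w) := by
    rw [map_mul, map_pow, map_pow, e3, ← hG1]
    ring
  have e6 : ge (vL k M) a (io M (Dt * q0 ^ m)) := by
    rw [e5]
    have f1 : ge (vL k M) 0 (a2 * b1 - b2 * a1) := by
      have g1 := ge_mulL ha2 hb1
      have g2 := ge_mulL hb2 ha1
      rw [add_zero] at g1 g2
      exact ge_subL g1 g2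
    have f2 := ge_mulL (io_ge0 (k := k) (q0 ^ 3)) f1
    have f3 : ge (vL k M) a (io M (Polynomial.C (algebraMap L M c1) * Polynomial.X ^ a)) :=
      (io_ge _ _).2 (Dvd.intro_left _ rfl)
    have f4 := ge_mulL f2 (ge_mulL f3 (hy2 w))
    rw [add_zero, add_zero, zero_add] at f4
    exact f4
  rw [io_ge] at e6
  have h0 : ¬ Polynomial.X ∣ q0 ^ m := fun h => by
    have := Polynomial.prime_X.dvd_of_dvd_pow h
    rw [Polynomial.X_dvd_iff] at this
    exact hΛ this
  exact Polynomial.prime_X.pow_dvd_of_dvd_mul_right a h0 e6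

end Pool.Agent.H52.S2
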