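import Pool.Agent.H84.S2.TgB
import Pool.Agent.H48.SF.LCS

/-!
# MP_70ba79_ag, board s2l_modules: row B_LDT, the local data at a point of a nodal curve
-/

set_option autoImplicit false

namespace Pool.Agent.H52.S2

open MvPolynomial SC
open Pool.Agent.H27.LV (ge deg poleOrder canDeg)
open Pool.Agent.H84.SM (cr dt dp)
open Pool.Agent.H84.SL (pd)
open Pool.Agent.H92.SF (Q2)
open Pool.Agent.H3.SF (Itg Bb BB Hm eu grd hes Sfc Crd Cnn Crf Prm nv Vl VQ evc FE E)
open Pool.Agent.H84.SF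
open Pool.Agent.H3.S2
open Pool.Agent.H84.S2

section Ideals

variable {k O : Type} [Field k] [CommRing O] [Algebra k O]

/-- a derivation maps a power of an ideal to the power before -/
theorem der_pow_mem (I : Ideal O) (D : Derivation k O O) (n : ℕ) :
    ∀ x ∈ I ^ (n + 1), D x ∈ I ^ n := by
  induction n with
  | zero =>
    intro x _
    rw [pow_zero, Ideal.one_eq_top]
    exact Submodule.mem_top
  | succ n ih =>
    intro x hx
    rw [pow_succ] at hx
    refine Submodule.mul_induction_on hx ?_ ?_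
    · intro a ha b hb
      rw [Derivation.leibniz, smul_eq_mul, smul_eq_mul]
      refine Ideal.add_mem _ (Ideal.mul_mem_right _ _ ha) ?_
      rw [pow_succ, mul_comm b]
      exact Ideal.mul_mem_mul (ih a ha) hb
    · intro a b ha hb
      rw [map_add]
      exact Ideal.add_mem _ ha hb

theorem dt_smooth {A : Type} [CommRing A] (g : A) (p P Q : Fin 3 → A) :
    dt p (fun l => g * P l) Q = g * dt p P Q := by
  simp only [dt, dp, cr, Fin.sum_univ_three]
  simp only [Fin.isValue, Fin.reduceAdd, zero_add]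
  ring

theorem dt_node {A : Type} [CommRing A] (α β gx gy : A) (p P Q : Fin 3 → A) :
    dt p (fun l => α * P l + β * Q l) (fun l => gy * P l - gx * Q l) =
      (α * gx + β * gy) * -dt p P Q := by
  simp only [dt, dp, cr, Fin.sum_univ_three]
  simp only [Fin.isValue, Fin.reduceAdd, zero_add]
  ring

end Ideals

section Val

variable {k K : Type} [Field k] [Field K] [Algebra k K] {v : DV k K}

theorem ge_div {t : ℤ} {z w : K} (hw : w ≠ 0) (h : ge v (v.ord w + t) z) : ge v t (z / w) := by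
  rcases h with h | h
  · exact Or.inl (by rw [h, zero_div])
  · by_cases hz : z = 0
    · exact Or.inl (by rw [hz, zero_div])
    · refine Or.inr ?_
      have h1 : z / w ≠ 0 := div_ne_zero hz hw
      have h2 := v.ord_mul (z / w) w h1 hw
      rw [div_mul_cancel₀ z hw] at h2
      omega

theorem ge_weak {s t : ℤ} {z : K} (hst : t ≤ s) (h : ge v s z) : ge v t z := by
  rcases h with h | h
  · exact Or.inl h
  · exact Or.inr (hst.trans h)

/-- the orders of the values of a derivation -/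
theorem der_ge {D : Derivation k K K} {e : ℤ} (hD : ∀ z, z ≠ 0 → ge v (v.ord z + e) (D z)) :
    (∀ (z : K) (t : ℤ), ge v t z → ge v (t - -e) (D z)) ∧ ∀ z, ge v 0 z → ge v e (D z) := by
  have h1 : ∀ (z : K) (t : ℤ), ge v t z → ge v (t - -e) (D z) := by
    intro z t h
    by_cases hz : z = 0
    · exact Or.inl (by rw [hz, map_zero])
    · rcases h with h | h
      · exact absurd h hz
      · exact ge_weak (by omega) (hD z hz)
  refine ⟨h1, fun z hz => ?_⟩
  have h2 := h1 z 0 hz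
  rw [zero_sub, neg_neg] at h2
  exact h2

end Val

section Geo

variable {k F σ : Type} [Field k] [Field F] [Algebra k F] {X : σ → F} {u : Fin 3 → F}
  {dd : Fin 3 → Derivation k F F} {J : MvPolynomial (Fin 3) k} {j0 : ℕ} {s : σ → k}

theorem sum_app (cX : Fin 3 → F) (dd : Fin 3 → Derivation k F F) (z : F) :
    (∑ l, cX l • dd l) z = ∑ l, cX l * dd l z := by
  rw [Fin.sum_univ_three, Fin.sum_univ_three]
  rfl

theorem coef (hS : SYd X u dd J j0) {L0 : MvPolynomial σ k} {cX : Fin 3 → F}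
    {dX : Derivation k (Os X s) (Os X s)} (h0 : (∑ l, cX l • dd l) (aeval X L0) = 0)
    (hdX : ∀ h : Os X s, ((dX h : Os X s) : F) = (∑ l, cX l • dd l) (h : F))
    {p : Fin 3 → Os X s} (hp : ∀ l, (p l : F) * aeval X L0 = u l) (l : Fin 3) :
    ((dX (p l) : Os X s) : F) * aeval X L0 = cX l := by
  have h1 : (∑ l, cX l • dd l : Derivation k F F) ((p l : F) * aeval X L0) =
      (∑ l, cX l • dd l : Derivation k F F) (u l) := by rw [hp l]
  rw [Derivation.leibniz, h0, smul_zero, zero_add, smul_eq_mul, ← hdX, sum_app cX dd (u l)] at h1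
  rw [mul_comm, h1]
  simp only [hS.ddu, mul_ite, mul_one, mul_zero]
  rw [Finset.sum_ite_eq' Finset.univ l, if_pos (Finset.mem_univ l)]

theorem der_G {L0 GP : MvPolynomial σ k} {m : ℕ} {cX : Fin 3 → F}
    {dX : Derivation k (Os X s) (Os X s)} (h0 : (∑ l, cX l • dd l) (aeval X L0) = 0)
    (hdX : ∀ h : Os X s, ((dX h : Os X s) : F) = (∑ l, cX l • dd l) (h : F))
    {Gs : Os X s} (hG : (Gs : F) * aeval X L0 ^ m = aeval X GP) :
    ∑ l, dd l (aeval X GP) * cX l = ((dX Gs : Os X s) : F) * aeval X L0 ^ m := by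
  have h1 : ∑ l, dd l (aeval X GP) * cX l = (∑ l, cX l • dd l) (aeval X GP) := by
    rw [sum_app]
    exact Finset.sum_congr rfl fun l _ => mul_comm _ _
  rw [h1, ← hG, Derivation.leibniz, Derivation.leibniz_pow, h0, smul_zero, smul_zero, smul_zero,
    zero_add, smul_eq_mul, ← hdX, mul_comm]

/-- the coordinates in the local ring -/
theorem exists_p (hS : SYd X u dd J j0) (hc : Cone X s) {L0 : MvPolynomial σ k}
    (hL : L0.IsHomogeneous 1) (hs : eval s L0 ≠ 0) :
    ∃ p : Fin 3 → Os X s, ∀ l, (p l : F) * aeval X L0 = u l := by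
  have h0 : aeval X L0 ≠ 0 := fun h => hs (hc.pt L0 h)
  have h1 : ∀ l, ∃ z : Os X s, (z : F) * aeval X L0 = u l := by
    intro l
    obtain ⟨U, hU, hUl⟩ := hS.ulin l
    refine ⟨⟨u l / aeval X L0, 1, U, L0, ⟨hU, hL, ?_⟩, hs⟩, ?_⟩
    · rw [hUl, div_mul_cancel₀ _ h0]
    · exact div_mul_cancel₀ _ h0
  choose p hp using h1
  exact ⟨p, hp⟩

end Geo

section Main

variable {k F σ : Type} [Field k] [IsAlgClosed k] [CharZero k] [Field F] [Algebra k F]
  [Fintype σ] [DecidableEq σ] {X : σ → F} {u : Fin 3 → F}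
  {dd : Fin 3 → Derivation k F F} {J : MvPolynomial (Fin 3) k} {j0 : ℕ} {s : σ → k}

/-- the regularity of a section along a logarithmic vector field `a dX + b dY`, with the
derivative of the equation along another field -/
theorem reg (hRGA : T_RGA) (hS : SYd X u dd J j0) {m : ℕ} {GP : MvPolynomial σ k} (hm : 1 ≤ m)
    (hN : Nc X m GP) (hs : s ≠ 0) (hc : Cone X s) {L0 : MvPolynomial σ k}
    (hL : L0.IsHomogeneous 1) (hLs : eval s L0 ≠ 0) {cX cY cZ : Fin 3 → F}
    {dX dY dZ : Derivation k (Os X s) (Os X s)}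
    (hX0 : (∑ l, cX l • dd l) (aeval X L0) = 0) (hY0 : (∑ l, cY l • dd l) (aeval X L0) = 0)
    (hZ0 : (∑ l, cZ l • dd l) (aeval X L0) = 0)
    (hdX : ∀ h : Os X s, ((dX h : Os X s) : F) = (∑ l, cX l • dd l) (h : F))
    (hdY : ∀ h : Os X s, ((dY h : Os X s) : F) = (∑ l, cY l • dd l) (h : F))
    (hdZ : ∀ h : Os X s, ((dZ h : Os X s) : F) = (∑ l, cZ l • dd l) (h : F))
    {p : Fin 3 → Os X s} (hp : ∀ l, (p l : F) * aeval X L0 = u l) {Gs : Os X s}
    (hG : (Gs : F) * aeval X L0 ^ m = aeval X GP) {a b : Os X s}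
    (hab : a * dX Gs + b * dY Gs = Gs) {n t : ℕ} {V : Q2 F}
    (hV : V ∈ E u dd J m (aeval X GP) n (-(t : ℤ))) (hV0 : V.natDegree = 0) (c : Fin 3 → F)
    (hcl : ∀ l, c l = aeval X L0 * ((a * dX (p l) + b * dY (p l) : Os X s) : F)) :
    ∃ f : Os X s, (f : F) * aeval X L0 ^ ((2 * n + 1) * j0) =
      ((dZ Gs : Os X s) : F) ^ n * aeval u J ^ (2 * n + 1) * aeval X L0 ^ t * Vc u c V := by
  refine hRGA k F σ X u dd J j0 hS m GP hm hN s hs hc L0 hL hLs n t V hV hV0 c cZ
    (fun l => a * dX (p l) + b * dY (p l)) (fun l => dZ (p l)) 1 (dZ Gs) ?_ ?_ ?_ ?_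
  · intro l
    rw [hcl l, mul_comm]
  · exact coef hS hZ0 hdZ hp
  · have h1 : ∀ l, c l = (a : F) * cX l + (b : F) * cY l := by
      intro l
      rw [hcl l, ← coef hS hX0 hdX hp l, ← coef hS hY0 hdY hp l]
      push_cast
      ring
    have h2 : ∑ l, dd l (aeval X GP) * c l = (a : F) * ∑ l, dd l (aeval X GP) * cX l +
        (b : F) * ∑ l, dd l (aeval X GP) * cY l := by
      rw [Finset.mul_sum, Finset.mul_sum, ← Finset.sum_add_distrib]
      refine Finset.sum_congr rfl fun l _ => ?_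
      rw [h1 l]
      ring
    have h3 : (a : F) * ((dX Gs : Os X s) : F) + (b : F) * ((dY Gs : Os X s) : F) = (Gs : F) := by
      rw [← hab]
      push_cast
      rw [hab]
    rw [h2, der_G hX0 hdX hG, der_G hY0 hdY hG, OneMemClass.coe_one, one_mul, ← hG, ← h3]
    ring
  · exact der_G hZ0 hdZ hG

end Main

theorem pf_LDT (hOSF : T_OSF) (hNFR : T_NFR) (hSMT : T_SMT) (hPRI : T_PRI) (hCHK : T_CHK)
    (hFRN : T_FRN) (hLGN : T_LGN) (hRGA : T_RGA) : T_LDT := by
  intro k F σ _ _ _ _ _ _ _ X u dd J j0 hS m GP hm hN s hs hc hGs0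
  rcases hN.ndl s hs hc.pt hGs0 with hsm | hnd
  · obtain ⟨-, L0, L1, cX, cG, ε, x1, Gs, dX, dG, hl0, hl1, hv0, hv1, hder, heps, heX, heG, hfrm,
      hdX, hdG⟩ := hOSF k F σ X s dd GP m hc hs (Pool.Agent.H48.SF.lin_dd hS) hm hN.hom hGs0
        (hSMT k F σ X GP s hsm)
    obtain ⟨p, hp⟩ := exists_p hS hc hl0 hv0
    refine ⟨L0, ε, p, fun l => Gs * dG (p l), fun l => dX (p l), Gs, hl0, hv0, hp, heG, heps,
      ⟨dt p (fun l => dG (p l)) (fun l => dX (p l)), dt_smooth _ _ _ _⟩, ?_, ?_⟩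
    · intro K _ _ y v hy0 hy1 hyG D e hD
      obtain ⟨hD1, hD2⟩ := der_ge hD
      have hch := hCHK k (Os X s) K ε x1 Gs dX dG hfrm y v hy0 hy1 D ⟨-e, hD1⟩
      refine ⟨D (y Gs) / y Gs, D (y x1), ge_div hyG (hD _ hyG), hD2 _ (hy0 _), ?_⟩
      intro l
      rw [hch (p l), map_mul, ← mul_assoc, div_mul_cancel₀ _ hyG]
      ring
    · intro n t V hV hV0 μ
      obtain ⟨f, hf⟩ := reg hRGA hS hm hN hs hc hl0 hv0 hder.x0 hder.g0 hder.g0 hdX hdG hdG hp heG
        (a := algebraMap k (Os X s) μ) (b := Gs) (by rw [hfrm.xg, hfrm.gg]; ring) hV hV0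
        (fun l => aeval X L0 * (((Gs * dG (p l) : Os X s) : F) + μ • ((dX (p l) : Os X s) : F)))
        (by
          intro l
          congr 1
          rw [Algebra.smul_def]
          push_cast
          rw [add_comm])
      refine ⟨f, ?_⟩
      rw [hf, hfrm.gg, OneMemClass.coe_one, one_pow, one_mul]
  · obtain ⟨hNoe, L0, L1, L2, cX, cY, ε, x1, y1, Gs, dX, dY, hl2, hFr, heG, hG3⟩ :=
      hNFR k F σ X u dd J j0 hS m GP hN.hom s hs hc hGs0 hnd
    obtain ⟨α, β, hα, hβ, hαβ, hlog⟩ := hLGN k (Os X s) ε x1 y1 dX dY hFr.frm Gs hG3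
    obtain ⟨p, hp⟩ := exists_p hS hc hFr.l0 hFr.v0
    refine ⟨L0, ε, p, fun l => α * dX (p l) + β * dY (p l),
      fun l => dY Gs * dX (p l) - dX Gs * dY (p l), Gs, hFr.l0, hFr.v0, hp, heG, hFr.eps,
      ⟨-dt p (fun l => dX (p l)) (fun l => dY (p l)), ?_⟩, ?_, ?_⟩
    · rw [dt_node, hαβ]
    · intro K _ _ y v hy0 hy1 hyG D e hD
      obtain ⟨hD1, -⟩ := der_ge hD
      have hch := hCHK k (Os X s) K ε x1 y1 dX dY hFr.frm y v hy0 hy1 D ⟨-e, hD1⟩
      obtain ⟨a, b, ha, hb, h⟩ := hlog K y v hy0 hy1 hyG D e hD hch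
      exact ⟨a, b, ha, hb, fun l => h (p l)⟩
    · intro n t V hV hV0 μ
      have hcl : ∀ l, (fun l => aeval X L0 * (((α * dX (p l) + β * dY (p l) : Os X s) : F) +
          μ • ((dY Gs * dX (p l) - dX Gs * dY (p l) : Os X s) : F))) l = aeval X L0 *
          (((α + algebraMap k (Os X s) μ * dY Gs) * dX (p l) +
            (β - algebraMap k (Os X s) μ * dX Gs) * dY (p l) : Os X s) : F) := by
        intro l
        simp only [Algebra.smul_def]
        push_cast
        ring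
      have hab : (α + algebraMap k (Os X s) μ * dY Gs) * dX Gs +
          (β - algebraMap k (Os X s) μ * dX Gs) * dY Gs = Gs := by
        have h1 : (α + algebraMap k (Os X s) μ * dY Gs) * dX Gs +
          (β - algebraMap k (Os X s) μ * dX Gs) * dY Gs = α * dX Gs + β * dY Gs := by ring
        rw [h1, hαβ]
      obtain ⟨f1, hf1⟩ := reg hRGA hS hm hN hs hc hFr.l0 hFr.v0 hFr.der.x0 hFr.der.g0 hFr.der.x0
        hFr.dX hFr.dG hFr.dX hp heG hab hV hV0 _ hcl
      obtain ⟨f2, hf2⟩ := reg hRGA hS hm hN hs hc hFr.l0 hFr.v0 hFr.der.x0 hFr.der.g0 hFr.der.g0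
        hFr.dX hFr.dG hFr.dG hp heG hab hV hV0 _ hcl
      have hx : dX (Gs - x1 * y1) = dX Gs - y1 := by
        rw [map_sub, Derivation.leibniz, hFr.frm.xx, hFr.frm.xg, smul_zero, zero_add, smul_eq_mul,
          mul_one]
      have hy : dY (Gs - x1 * y1) = dY Gs - x1 := by
        rw [map_sub, Derivation.leibniz, hFr.frm.gx, hFr.frm.gg, smul_zero, add_zero, smul_eq_mul,
          mul_one]
      obtain ⟨dα, dβ, hfr'⟩ := hFRN k (Os X s) ε x1 y1 dX dY hFr.frm (dY Gs) (dX Gs)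
        (by rw [← hy]; exact der_pow_mem _ dY 2 _ hG3) (by rw [← hx]; exact der_pow_mem _ dX 2 _ hG3)
      haveI := hNoe
      obtain ⟨hpr, hnd'⟩ := hPRI k (Os X s) ε (dY Gs) (dX Gs) dα dβ hfr'
      have hL0 : aeval X L0 ≠ 0 := fun h => hFr.v0 (hc.pt L0 h)
      have hB : aeval X L0 ^ ((2 * n + 1) * j0) ≠ 0 := pow_ne_zero _ hL0
      have he : dY Gs ^ n * f1 = dX Gs ^ n * f2 := by
        apply Subtype.ext
        apply mul_right_cancel₀ hB
        push_cast
        linear_combination ((dY Gs : Os X s) : F) ^ n * hf1 - ((dX Gs : Os X s) : F) ^ n * hf2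
      obtain ⟨f, hf⟩ := hpr.pow_dvd_of_dvd_mul_left n
        (fun h => hnd' (hpr.dvd_of_dvd_pow h)) (Dvd.intro f2 he.symm)
      refine ⟨f, ?_⟩
      have hx0 : ((dX Gs : Os X s) : F) ^ n ≠ 0 := by
        apply pow_ne_zero
        intro h
        exact hpr.ne_zero (Subtype.ext h)
      have e1 : ((dX Gs ^ n * f : Os X s) : F) = ((dX Gs : Os X s) : F) ^ n * (f : F) := by
        push_cast
        ring
      rw [hf, e1] at hf1
      apply mul_left_cancel₀ hx0
      rw [← mul_assoc, hf1]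
      ring

end Pool.Agent.H52.S2
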